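import Pool.Agent.H72.CH.Targets
import Pool.Agent.H44.FB.Basics

/-!
# Chains of equivalence relations (MP_6ab439_lc): row FNC
-/

set_option autoImplicit false
set_option linter.unusedVariables false

namespace Pool.Agent.H1.CHL

open Pool.Agent.H68.BP Pool.Agent.H58.SF Pool.Agent.H53.NR
open Pool.Agent.H57.AR (tp ty Ty)
open Pool.Agent.H44.KR (TpOn Tyi)
open Pool.Agent.H44.FB (tpo_trans tpo_of_tp tpo_comp tyi_on LocP CptC)
open Pool.Agent.H72.CH
open Function

theorem pf_FNC : T_FNC := by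
  classical
  intro V ρ σ 𝔹 m lv 𝔸 hV ht hcpt hep hnq P _ _ U
  by_contra hcon
  have hc : Countable V := hV.cnt
  have hne : Nonempty V := hV.ne
  let Good : ((P → V) → V) → Prop := fun F => ∀ x ∈ U, ∀ y ∈ U,
      (∀ j, (∀ p, j ≤ lv (x p) (y p)) → j ≤ lv (F x) (F y)) ∧
      ∀ l < m, (∀ p, lv (x p) (y p) = l ∧ Rgd 𝔸 (x p) (y p)) → lv (F x) (F y) = l
  have hbad : ∀ U' : Finset (P → V), U ⊆ U' → ∃ F : (P → V) → V, LocP 𝔸 U' F ∧ ¬ Good F := by
    intro U' hU'
    by_contra h1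
    push Not at h1
    exact hcon ⟨U', hU', fun F hF => h1 F hF⟩
  have hlv : ∀ (Y : Finset (P → V)) (F F' : (P → V) → V), TpOn 𝔹 (Y : Set (P → V)) F F' →
      ∀ x ∈ Y, ∀ y ∈ Y, lv (F x) (F y) = lv (F' x) (F' y) := by
    intro Y F F' hF x hx y hy
    have h1 := tpo_comp hF (![x, y] : Fin 2 → P → V) (by
      intro w
      refine Fin.cases ?_ (fun w' => ?_) w
      · exact hx
      · have : w' = 0 := Subsingleton.elim _ _
        subst this
        exact hy)
    exact hV.inv _ _ h1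
  have hcP : Countable (P → V) := inferInstance
  obtain ⟨f, -, hf⟩ := hcpt (P → V) ∅ (fun x => x (Classical.arbitrary P))
    (fun Y F => LocP 𝔸 Y F ∧ (U ⊆ Y → ¬ Good F))
    (fun Y => by
      obtain ⟨F, h1, h2⟩ := hbad (U ∪ Y) Finset.subset_union_left
      exact ⟨F, ⟨fun l z hz hA => h1 l z (fun i => Finset.mem_union_right _ (hz i)) hA,
        fun _ => h2⟩, fun x hx => absurd hx (Finset.notMem_empty x)⟩)
    (fun Y Y' F hY h => ⟨fun l z hz hA => h.1 l z (fun i => hY (hz i)) hA,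
      fun hU => h.2 (hU.trans hY)⟩)
    (fun Y F F' h hF => ⟨fun l z hz hA => tyi_on ht hF l z (fun i => hz i) (h.1 l z hz hA),
      fun hU hG => h.2 hU fun x hx y hy => by
        rw [hlv Y F F' hF x (hU hx) y (hU hy)]
        exact hG x hx y hy⟩)
  have hpoly : IsPoly 𝔸 𝔸 f := by
    intro l x hx
    exact (hf (Finset.univ.image fun i => fun p => x p i)).1 l (fun i p => x p i)
      (fun i => Finset.mem_image_of_mem (fun i => fun p => x p i) (Finset.mem_univ i)) hx
  refine (hf U).2 (Finset.Subset.refl U) ?_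
  intro x _ y _
  exact ⟨fun j hj => hep P f hpoly j x y hj, fun l hl hp => hnq P f hpoly l hl x y hp⟩

end Pool.Agent.H1.CHL
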