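import Pool.Agent.H72.CH.Targets
import Pool.Agent.H44.FB.Basics

/-!
# Chains of equivalence relations (MP_6ab439_lc): row NEX
-/

set_option autoImplicit false
set_option linter.unusedVariables false

namespace Pool.Agent.H1.CHL

open Pool.Agent.H68.BP Pool.Agent.H58.SF Pool.Agent.H53.NR
open Pool.Agent.H57.AR (tp ty Ty)
open Pool.Agent.H44.KR (TpOn)
open Pool.Agent.H44.FB (tpo_trans tpo_of_tp)
open Pool.Agent.H72.CH
open Function

theorem pf_NEX : T_NEX := by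
  intro V N ρ δ 𝔹 m lv 𝔻 st β hN hE W _ s X g Λ C h1 h2 h3
  obtain ⟨g', hg', hT⟩ := hE W s X g Λ C h1 h2 h3
  obtain ⟨x, hx, hs, ht⟩ := hN.uni W s g' hg'
  exact ⟨x, hx, hs, fun a => tpo_trans (hT a) (tpo_of_tp ht.symm (C a))⟩

end Pool.Agent.H1.CHL
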