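import Pool.Agent.H72.CH.Targets2
import Pool.Agent.H57.CN.Basics
import Pool.Agent.H44.FB.Basics

/-!
# Chains of equivalence relations (MP_6ab439_lc): copies in the limit, for the rows SBH and SBE
-/

set_option autoImplicit false
set_option linter.unusedVariables false

namespace Pool.Agent.H1.CHL

open Pool.Agent.H68.BP Pool.Agent.H58.SF Pool.Agent.H53.NR
open Pool.Agent.H57.AR (tp ty Ty HomEq)
open Pool.Agent.H57.LH (Hmg tp_iff)
open Pool.Agent.H44.KR (TpOn Tyi Amg)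
open Pool.Agent.H44.FB (comp_of_tp rel_of_tp eq_of_tp)
open Pool.Agent.H57.CN (KH Lim lv_tp)
open Pool.Agent.H72.CH
open Function

variable {V : Type} {ρ : Sig} {𝔹 : Str ρ V} {m : ℕ} {lv : V → V → ℕ} {j : ℕ} {𝔹' : Str ρ ℕ}

/-- every finite tuple of the limit has a copy which avoids the level `j` -/
theorem copy (hL : Lim (KJ 𝔹 lv j) 𝔹') {W : Type} [Finite W] (x : W → ℕ) :
    ∃ y : W → V, tp 𝔹 y = tp 𝔹' x ∧ ∀ a b, lv (y a) (y b) ≠ j := by
  obtain ⟨x0, h1, h2, h3⟩ := hL.age (Set.range x) Subtype.val Subtype.val_injective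
  refine ⟨fun a => x0 ⟨x a, a, rfl⟩, ?_, fun a b => h3 _ _⟩
  refine Prod.ext ?_ ?_
  · funext a b
    apply propext
    show x0 ⟨x a, a, rfl⟩ = x0 ⟨x b, b, rfl⟩ ↔ x a = x b
    rw [h1.eq_iff, Subtype.mk.injEq]
  · funext l z
    have h4 := congrFun (congrFun h2 l) (fun i => ⟨x (z i), z i, rfl⟩)
    exact h4.symm

/-- every finite tuple which avoids the level `j` has a copy in the limit -/
theorem back (hL : Lim (KJ 𝔹 lv j) 𝔹') (har : ∀ l, 1 ≤ ρ.ar l) {W : Type} [Finite W] (y : W → V)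
    (hy : ∀ a b, lv (y a) (y b) ≠ j) : ∃ x : W → ℕ, tp 𝔹' x = tp 𝔹 y := by
  obtain ⟨x0, h1, -, h2⟩ := hL.ext (Set.range y) ∅ (fun _ => 0) (pull 𝔹 Subtype.val)
    (Set.injOn_empty _) ⟨Subtype.val, Subtype.val_injective, rfl, by
      rintro ⟨_, a, rfl⟩ ⟨_, b, rfl⟩
      exact hy a b⟩
    (fun l z hz => absurd (hz ⟨0, har l⟩) (Set.notMem_empty _))
  refine ⟨fun a => x0 ⟨y a, a, rfl⟩, ?_⟩
  refine Prod.ext ?_ ?_
  · funext a b
    apply propext
    show x0 ⟨y a, a, rfl⟩ = x0 ⟨y b, b, rfl⟩ ↔ y a = y b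
    rw [h1.eq_iff, Subtype.mk.injEq]
  · funext l z
    have h4 := congrFun (congrFun h2 l) (fun i => ⟨y (z i), z i, rfl⟩)
    exact h4

end Pool.Agent.H1.CHL
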