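import Pool.Agent.H1.CHL.SBC

/-!
# Chains of equivalence relations (MP_6ab439_lc): row SBE
-/

set_option autoImplicit false
set_option linter.unusedVariables false

namespace Pool.Agent.H1.CHL

open Pool.Agent.H68.BP Pool.Agent.H58.SF Pool.Agent.H53.NR
open Pool.Agent.H57.AR (tp ty Ty HomEq)
open Pool.Agent.H57.EQ (Cx)
open Pool.Agent.H44.KR (TpOn Tyi Amg)
open Pool.Agent.H57.CN (KH Lim lv_tp)
open Pool.Agent.H72.CH
open Function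

/-- types of subtuples -/
theorem ctp {ρ : Sig} {W W' V₁ V₂ : Type} {𝔹₁ : Str ρ V₁} {𝔹₂ : Str ρ V₂} {x : W → V₁}
    {y : W → V₂} (h : tp 𝔹₁ x = tp 𝔹₂ y) (z : W' → W) :
    tp 𝔹₁ (fun i => x (z i)) = tp 𝔹₂ (fun i => y (z i)) := by
  refine Prod.ext ?_ ?_
  · funext i i'
    exact congrFun (congrFun (congrArg Prod.fst h) _) _
  · funext l w
    exact congrFun (congrFun (congrArg Prod.snd h) l) _

theorem pf_SBE : T_SBE := by
  intro V ρ σ 𝔹 m lv 𝔸 j 𝔹' hV ht hj hL hA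
  refine ⟨fun l z => ∃ y : Fin (σ.ar l) → V, tp 𝔹 y = tp 𝔹' z ∧ 𝔸 l y, ?_, fun n 𝕏 => ?_⟩
  · rintro l x y ⟨c, h1, h2⟩ hxy
    exact ⟨c, h1.trans hxy.symm, h2⟩
  constructor
  · rintro ⟨f, hf⟩
    obtain ⟨ψ, h1, h2⟩ := hA n f
    obtain ⟨x, hx⟩ := back hL hV.ar ψ h2
    refine ⟨x, fun l z hz => ⟨fun i => ψ (z i), ?_, ?_⟩⟩
    · exact (ctp hx z).symm
    · exact h1 l z fun _ => hf l z hz
  · rintro ⟨x, hx⟩
    obtain ⟨y, hy, -⟩ := copy hL x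
    refine ⟨y, fun l z hz => ?_⟩
    obtain ⟨y0, h1, h2⟩ := hx l z hz
    exact ht l y0 _ h2 ((ctp hy z).trans h1.symm)

end Pool.Agent.H1.CHL
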