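import Pool.Agent.H1.CHL.SBC

/-!
# Chains of equivalence relations (MP_6ab439_lc): row SBH
-/

set_option autoImplicit false
set_option linter.unusedVariables false

namespace Pool.Agent.H1.CHL

open Pool.Agent.H68.BP Pool.Agent.H58.SF Pool.Agent.H53.NR
open Pool.Agent.H57.LCI (Pre Realizes)
open Pool.Agent.H57.AR (tp ty Ty HomEq)
open Pool.Agent.H57.LH (Hmg tp_iff)
open Pool.Agent.H44.KR (TpOn Tyi Amg)
open Pool.Agent.H44.FB (comp_of_tp rel_of_tp eq_of_tp ty_of_tp)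
open Pool.Agent.H57.CN (KH Lim lv_tp)
open Pool.Agent.H72.CH
open Function

/-- the levels without `j` as levels -/
def up (j t : ℕ) : ℕ := if t < j then t else t + 1

/-- the inverse -/
def dn (j k : ℕ) : ℕ := if k < j then k else k - 1

theorem up_ne (j t : ℕ) : up j t ≠ j := by
  unfold up
  split_ifs <;> omega

theorem up_dn {j k : ℕ} (h : k ≠ j) : up j (dn j k) = k := by
  unfold up dn
  split_ifs <;> omega

theorem up_le (j : ℕ) {s t : ℕ} : up j s ≤ up j t ↔ s ≤ t := by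
  unfold up
  split_ifs <;> omega

theorem up_inj (j : ℕ) {s t : ℕ} (h : up j s = up j t) : s = t :=
  le_antisymm ((up_le j).1 h.le) ((up_le j).1 h.ge)

theorem up_min (j s t : ℕ) : min (up j s) (up j t) = up j (min s t) := by
  rcases le_total s t with h | h
  · rw [min_eq_left h, min_eq_left ((up_le j).2 h)]
  · rw [min_eq_right h, min_eq_right ((up_le j).2 h)]

theorem up_top {j m : ℕ} (h : j ≤ m) : up j m = m + 1 := if_neg (not_lt.2 h)

variable {V : Type} {ρ : Sig} {𝔹 : Str ρ V} {m : ℕ} {lv : V → V → ℕ} {j : ℕ} {𝔹' : Str ρ ℕ}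

/-- the level function on the limit -/
noncomputable def lvn (hL : Lim (KJ 𝔹 lv j) 𝔹') (x y : ℕ) : ℕ :=
  dn j (lv ((copy hL ![x, y]).choose 0) ((copy hL ![x, y]).choose 1))

theorem lvn_up (hV : HV 𝔹 (m + 1) lv) (hL : Lim (KJ 𝔹 lv j) 𝔹') {J : Type} {x : J → ℕ}
    {y : J → V} (h : tp 𝔹' x = tp 𝔹 y) (a b : J) :
    lv (y a) (y b) = up j (lvn hL (x a) (x b)) := by
  obtain ⟨h1, h2⟩ := (copy hL ![x a, x b]).choose_spec
  have h3 : (fun i : Fin 2 => x (if i = 0 then a else b)) = ![x a, x b] := by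
    funext i
    fin_cases i <;> rfl
  have h4 : tp 𝔹 (fun i : Fin 2 => y (if i = 0 then a else b)) =
      tp 𝔹 (copy hL ![x a, x b]).choose := by
    rw [h1, ← h3]
    refine Prod.ext ?_ ?_
    · funext i i'
      exact congrFun (congrFun (congrArg Prod.fst h.symm) _) _
    · funext l z
      exact congrFun (congrFun (congrArg Prod.snd h.symm) l) _
  have h5 := hV.inv _ _ h4
  have h6 : lv (y a) (y b) = lv ((copy hL ![x a, x b]).choose 0)
      ((copy hL ![x a, x b]).choose 1) := h5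
  rw [h6]
  exact (up_dn (h2 0 1)).symm

/-- copies with their levels -/
theorem copyl (hV : HV 𝔹 (m + 1) lv) (hL : Lim (KJ 𝔹 lv j) 𝔹') {W : Type} [Finite W]
    (x : W → ℕ) : ∃ y : W → V, tp 𝔹 y = tp 𝔹' x ∧
      ∀ a b, lv (y a) (y b) = up j (lvn hL (x a) (x b)) := by
  obtain ⟨y, h1, h2⟩ := copy hL x
  exact ⟨y, h1, fun a b => lvn_up hV hL h1.symm a b⟩

/-- equal entries -/
theorem eq_tp {W V₁ V₂ : Type} {𝔹₁ : Str ρ V₁} {𝔹₂ : Str ρ V₂} {x : W → V₁} {y : W → V₂}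
    (h : tp 𝔹₁ x = tp 𝔹₂ y) (a b : W) : x a = x b ↔ y a = y b :=
  iff_of_eq (congrFun (congrFun (congrArg Prod.fst h) a) b)

/-- relations -/
theorem rel_tp {W V₁ V₂ : Type} {𝔹₁ : Str ρ V₁} {𝔹₂ : Str ρ V₂} {x : W → V₁} {y : W → V₂}
    (h : tp 𝔹₁ x = tp 𝔹₂ y) (l : Fin ρ.m) (z : Fin (ρ.ar l) → W) :
    𝔹₁ l (fun i => x (z i)) ↔ 𝔹₂ l (fun i => y (z i)) :=
  iff_of_eq (congrFun (congrFun (congrArg Prod.snd h) l) z)

/-- prescriptions are realized by tuples of the same type -/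
theorem rz_tp {X V₁ V₂ : Type} {𝔹₁ : Str ρ V₁} {𝔹₂ : Str ρ V₂} {f : X → V₁} {g : X → V₂}
    (h : tp 𝔹₁ f = tp 𝔹₂ g) {p : Pre ρ X} (hp : Realizes 𝔹₁ f p) : Realizes 𝔹₂ g p := by
  refine ⟨fun a b hab => hp.1 ((eq_tp h _ _).2 hab), fun l x => ?_⟩
  exact (hp.2 l x).trans (rel_tp h l fun i => p.2.1 (x i))

theorem lev_lvn (hV : HV 𝔹 (m + 1) lv) (hj : j ≤ m) (hL : Lim (KJ 𝔹 lv j) 𝔹') :
    Lev m (lvn hL) := by
  refine ⟨⟨fun x y => ?_, fun x => ?_, fun x y => ?_, fun x y z => ?_⟩, fun x y h => ?_⟩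
  · obtain ⟨c, -, h2⟩ := copyl hV hL ![x, y]
    have h3 : lv (c 0) (c 1) = up j (lvn hL x y) := h2 0 1
    have h4 := hV.lev.pl.le (c 0) (c 1)
    rw [h3, ← up_top hj] at h4
    exact (up_le j).1 h4
  · obtain ⟨c, -, h2⟩ := copyl hV hL (fun _ : Unit => x)
    have h3 := h2 () ()
    rw [hV.lev.pl.self, ← up_top hj] at h3
    exact (up_inj j h3).symm
  · obtain ⟨c, -, h2⟩ := copyl hV hL ![x, y]
    have h3 : lv (c 0) (c 1) = up j (lvn hL x y) := h2 0 1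
    have h4 : lv (c 1) (c 0) = up j (lvn hL y x) := h2 1 0
    rw [hV.lev.pl.sym, h3] at h4
    exact up_inj j h4
  · obtain ⟨c, -, h2⟩ := copyl hV hL ![x, y, z]
    have h3 : lv (c 0) (c 1) = up j (lvn hL x y) := h2 0 1
    have h4 : lv (c 1) (c 2) = up j (lvn hL y z) := h2 1 2
    have h5 : lv (c 0) (c 2) = up j (lvn hL x z) := h2 0 2
    have h6 := hV.lev.pl.ult (c 0) (c 1) (c 2)
    rw [h3, h4, h5, up_min] at h6
    exact (up_le j).1 h6
  · obtain ⟨c, h1, h2⟩ := copyl hV hL ![x, y]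
    have h3 : lv (c 0) (c 1) = up j (lvn hL x y) := h2 0 1
    rw [h, up_top hj] at h3
    exact (eq_tp h1 0 1).1 (hV.lev.eq _ _ h3)

theorem rlc_lvn (hV : HV 𝔹 (m + 1) lv) (hj : j ≤ m) (hL : Lim (KJ 𝔹 lv j) 𝔹') :
    RelLC 𝔹' m (lvn hL) := by
  intro r
  obtain ⟨M, hM⟩ := hV.rlc r
  refine ⟨M, fun n lam P hlam hP hloc => ?_⟩
  have hpl : PLev (m + 1) (fun x y => up j (lam x y)) := by
    refine ⟨fun x y => ?_, fun x => ?_, fun x y => ?_, fun x y z => ?_⟩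
    · show up j (lam x y) ≤ m + 1
      rw [← up_top hj]
      exact (up_le j).2 (hlam.le x y)
    · show up j (lam x x) = m + 1
      rw [hlam.self, up_top hj]
    · show up j (lam x y) = up j (lam y x)
      rw [hlam.sym]
    · show min (up j (lam x y)) (up j (lam y z)) ≤ up j (lam x z)
      rw [up_min]
      exact (up_le j).2 (hlam.ult x y z)
  have hlo : ∀ U : Finset (Fin n), U.card ≤ M → ∃ f : Fin n → V,
      (∀ x ∈ U, ∀ y ∈ U, up j (lam x y) ≤ lv (f x) (f y)) ∧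
      ∀ p ∈ P, (∀ i, p.2.1 i ∈ U) → RlE 𝔹 lv (fun x y => up j (lam x y)) f p := by
    intro U hU
    obtain ⟨g, hg1, hg2⟩ := hloc U hU
    obtain ⟨f, hf1, hf2⟩ := copyl hV hL g
    refine ⟨f, fun x hx y hy => ?_, fun p hp hpU => ⟨rz_tp hf1.symm (hg2 p hp hpU).1, ?_⟩⟩
    · rw [hf2]
      exact (up_le j).2 (hg1 x hx y hy)
    · intro a b
      show lv (f (p.2.1 a)) (f (p.2.1 b)) = up j (lam (p.2.1 a) (p.2.1 b))
      rw [hf2, (hg2 p hp hpU).2 a b]
  obtain ⟨f, hf, hfP⟩ := hM n (fun x y => up j (lam x y)) P hpl hP hlo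
  have hav : ∀ a b, lv (f a) (f b) ≠ j := fun a b => by
    rw [hf a b]
    exact up_ne j _
  obtain ⟨g, hg⟩ := back hL hV.ar f hav
  refine ⟨g, fun x y => ?_, fun p hp => rz_tp hg.symm (hfP p hp)⟩
  have h1 := lvn_up hV hL hg x y
  rw [hf x y] at h1
  exact (up_inj j h1).symm

theorem pf_SBH : T_SBH := by
  intro V ρ 𝔹 m lv j 𝔹' hV hm hj hK hL hA
  refine ⟨lvn hL, ⟨⟨0⟩, inferInstance, hV.ar, lev_lvn hV hj hL, ?_, ?_, ?_, rlc_lvn hV hj hL⟩, ?_⟩
  · intro x y hxy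
    obtain ⟨c, h1, -⟩ := copy hL x
    have h2 := lvn_up hV hL h1.symm 0 1
    have h3 := lvn_up hV hL (hxy.symm.trans h1.symm) 0 1
    rw [h2] at h3
    exact up_inj j h3
  · intro x y
    obtain ⟨c, h1, -⟩ := copy hL ![x, y]
    have h2 := hV.one (c 0) (c 1)
    funext l
    have h3 := rel_tp h1 l (fun _ => 0)
    have h4 := rel_tp h1 l (fun _ => 1)
    have h5 := congrFun h2 l
    show 𝔹' l (fun _ => x) = 𝔹' l (fun _ => y)
    exact propext ((h3.symm.trans (iff_of_eq h5)).trans h4)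
  · intro W _ A x y h
    obtain ⟨x', h1, h2, -⟩ := hA W A x y ∅ h
    exact ⟨x', h1, h2⟩
  · intro W _ x y h a b
    exact lvn_up hV hL h a b

end Pool.Agent.H1.CHL
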